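import Mathlib

set_option autoImplicit false

/-!
# A divide and conquer bound for sequences all of whose partial sums have short decreasing
subsequences
-/

namespace Pool.Agent.H746R5.Lop

open Finset

variable {α : Type*} [LinearOrder α]

/-- Mirsky's labelling: if all strictly decreasing subsequences of `X` in `S` have length at most
`k`, then `S` can be labelled by `Fin k` such that `X` is non-decreasing on each class. -/
theorem exists_label (X : α → ℕ) (S : Finset α) (k : ℕ)
    (h : ∀ T ⊆ S, StrictAntiOn X (T : Set α) → T.card ≤ k) :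
    ∃ lab : α → ℕ, (∀ i ∈ S, lab i ∈ Finset.Icc 1 k) ∧
      ∀ i ∈ S, ∀ i' ∈ S, i < i' → lab i = lab i' → X i ≤ X i' := by
  classical
  let F : α → Finset (Finset α) := fun i =>
    S.powerset.filter fun T => StrictAntiOn X (T : Set α) ∧ i ∈ T ∧ ∀ t ∈ T, t ≤ i
  refine ⟨fun i => (F i).sup Finset.card, ?_, ?_⟩
  · intro i hi
    rw [Finset.mem_Icc]
    constructor
    · have hmem : ({i} : Finset α) ∈ F i := by
        simp only [F, Finset.mem_filter, Finset.mem_powerset, Finset.singleton_subset_iff]
        refine ⟨hi, ?_, by simp, by simp⟩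
        intro a ha b hb hab
        simp at ha hb
        subst ha; subst hb
        exact absurd hab (lt_irrefl _)
      have := Finset.le_sup (f := Finset.card) hmem
      simpa using this
    · apply Finset.sup_le
      intro T hT
      simp only [F, Finset.mem_filter, Finset.mem_powerset] at hT
      exact h T hT.1 hT.2.1
  · intro i hi i' hi' hlt hlab
    by_contra hcon
    push Not at hcon
    have hne : (F i).Nonempty := by
      refine ⟨{i}, ?_⟩
      simp only [F, Finset.mem_filter, Finset.mem_powerset, Finset.singleton_subset_iff]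
      refine ⟨hi, ?_, by simp, by simp⟩
      intro a ha b hb hab
      simp at ha hb
      subst ha; subst hb
      exact absurd hab (lt_irrefl _)
    obtain ⟨T, hT, hTmax⟩ := Finset.exists_mem_eq_sup (F i) hne Finset.card
    simp only [F, Finset.mem_filter, Finset.mem_powerset] at hT
    obtain ⟨hTS, hTa, hiT, hTle⟩ := hT
    have hnot : i' ∉ T := fun hc => absurd (hTle i' hc) (not_le.mpr hlt)
    have hmem : insert i' T ∈ F i' := by
      simp only [F, Finset.mem_filter, Finset.mem_powerset]
      refine ⟨Finset.insert_subset hi' hTS, ?_, Finset.mem_insert_self _ _, ?_⟩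
      · intro a ha b hb hab
        simp only [Finset.coe_insert, Set.mem_insert_iff, Finset.mem_coe] at ha hb
        rcases ha with rfl | ha
        · rcases hb with rfl | hb
          · exact absurd hab (lt_irrefl _)
          · exact absurd (lt_of_lt_of_le hab (hTle b hb)) (not_lt.mpr hlt.le)
        · rcases hb with rfl | hb
          · -- `X i' < X i ≤ X a`
            have h1 : X i ≤ X a := by
              rcases eq_or_lt_of_le (hTle a ha) with h2 | h2
              · rw [h2]
              · exact (hTa (by simpa using ha) (by simpa using hiT) h2).le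
            exact lt_of_lt_of_le hcon h1
          · exact hTa (by simpa using ha) (by simpa using hb) hab
      · intro t ht
        rcases Finset.mem_insert.mp ht with rfl | ht
        · exact le_refl _
        · exact (hTle t ht).trans hlt.le
    have h1 := Finset.le_sup (f := Finset.card) hmem
    rw [Finset.card_insert_of_notMem hnot] at h1
    have h2 : (F i).sup Finset.card = T.card := hTmax
    simp only at hlab
    omega

/-- Two non-decreasing functions with strictly increasing sum: the index set is at most as large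
as the two value sets together. -/
theorem card_le_image_add_image (X Y : α → ℕ) (C : Finset α)
    (hX : ∀ i ∈ C, ∀ i' ∈ C, i < i' → X i ≤ X i') (hY : ∀ i ∈ C, ∀ i' ∈ C, i < i' → Y i ≤ Y i')
    (hXY : ∀ i ∈ C, ∀ i' ∈ C, i < i' → X i + Y i < X i' + Y i') :
    C.card ≤ (C.image X).card + (C.image Y).card := by
  classical
  let φ : α → ℕ := fun i => ((C.filter (· ≤ i)).image X).card + ((C.filter (· ≤ i)).image Y).card
  have hsub : ∀ (Z : α → ℕ) (i i' : α), i < i' →
      (C.filter (· ≤ i)).image Z ⊆ (C.filter (· ≤ i')).image Z := by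
    intro Z i i' h
    apply Finset.image_subset_image
    intro c hc
    rw [Finset.mem_filter] at hc ⊢
    exact ⟨hc.1, hc.2.trans h.le⟩
  have hstrict : ∀ (Z : α → ℕ), (∀ i ∈ C, ∀ i' ∈ C, i < i' → Z i ≤ Z i') → ∀ i ∈ C, ∀ i' ∈ C,
      i < i' → Z i < Z i' →
      ((C.filter (· ≤ i)).image Z).card < ((C.filter (· ≤ i')).image Z).card := by
    intro Z hZ i hi i' hi' h hlt
    apply Finset.card_lt_card
    refine ⟨hsub Z i i' h, ?_⟩
    intro hc
    have h1 : Z i' ∈ (C.filter (· ≤ i')).image Z :=
      Finset.mem_image.mpr ⟨i', Finset.mem_filter.mpr ⟨hi', le_refl _⟩, rfl⟩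
    obtain ⟨c, hc1, hc2⟩ := Finset.mem_image.mp (hc h1)
    rw [Finset.mem_filter] at hc1
    have h3 : Z c ≤ Z i := by
      rcases eq_or_lt_of_le hc1.2 with h4 | h4
      · rw [h4]
      · exact hZ c hc1.1 i hi h4
    omega
  have hφ : ∀ i ∈ C, ∀ i' ∈ C, i < i' → φ i < φ i' := by
    intro i hi i' hi' h
    have h1 := hX i hi i' hi' h
    have h2 := hY i hi i' hi' h
    have h3 := hXY i hi i' hi' h
    have hcx := Finset.card_le_card (hsub X i i' h)
    have hcy := Finset.card_le_card (hsub Y i i' h)
    by_cases hx : X i < X i'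
    · have := hstrict X hX i hi i' hi' h hx
      simp only [φ]; omega
    · have hy : Y i < Y i' := by omega
      have := hstrict Y hY i hi i' hi' h hy
      simp only [φ]; omega
  have hmaps : ∀ i ∈ C, φ i ∈ Finset.Icc 1 ((C.image X).card + (C.image Y).card) := by
    intro i hi
    rw [Finset.mem_Icc]
    constructor
    · have : 0 < ((C.filter (· ≤ i)).image X).card := by
        rw [Finset.card_pos]
        exact ⟨X i, Finset.mem_image.mpr ⟨i, Finset.mem_filter.mpr ⟨hi, le_refl _⟩, rfl⟩⟩
      simp only [φ]; omega
    · have h1 := Finset.card_le_card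
        (Finset.image_subset_image (f := X) (Finset.filter_subset (· ≤ i) C))
      have h2 := Finset.card_le_card
        (Finset.image_subset_image (f := Y) (Finset.filter_subset (· ≤ i) C))
      simp only [φ]; omega
  have hinj : Set.InjOn φ (C : Set α) := by
    intro a ha b hb hab
    rcases lt_trichotomy a b with h | h | h
    · exact absurd hab (hφ a ha b hb h).ne
    · exact h
    · exact absurd hab (hφ b hb a ha h).ne'
  have := Finset.card_le_card_of_injOn φ hmaps hinj
  simpa using this

/-- The divide and conquer bound. -/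
theorem dc (m k q : ℕ) (hq : 1 ≤ q) (P : Finset α) (g : Fin m → α → ℕ)
    (h1 : ∀ (J : Finset (Fin m)) (S : Finset α), S ⊆ P →
      StrictAntiOn (fun i => ∑ j ∈ J, g j i) (S : Set α) → S.card ≤ k)
    (h2 : ∀ j, (P.image (g j)).card ≤ q) :
    ∀ (h : ℕ) (J : Finset (Fin m)), J.card ≤ 2 ^ h → ∀ S : Finset α, S ⊆ P →
      StrictMonoOn (fun i => ∑ j ∈ J, g j i) (S : Set α) → S.card ≤ q * (2 * k ^ 2) ^ h := by
  classical
  intro h
  induction h with
  | zero =>
    intro J hJ S hS hmono
    simp only [pow_zero, mul_one]
    rcases Finset.eq_empty_or_nonempty J with rfl | hne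
    · -- constant function
      have hle : S.card ≤ 1 := by
        rw [Finset.card_le_one]
        intro a ha b hb
        by_contra hab
        rcases lt_or_gt_of_ne hab with hlt | hlt
        · have := hmono (by simpa using ha) (by simpa using hb) hlt
          simp at this
        · have := hmono (by simpa using hb) (by simpa using ha) hlt
          simp at this
      omega
    · have hcard : J.card = 1 := by
        have := hne.card_pos
        simp at hJ
        omega
      obtain ⟨j, rfl⟩ := Finset.card_eq_one.mp hcard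
      have hinj : Set.InjOn (g j) (S : Set α) := by
        have := hmono.injOn
        simpa using this
      calc S.card = (S.image (g j)).card := (Finset.card_image_of_injOn hinj).symm
        _ ≤ (P.image (g j)).card := Finset.card_le_card (Finset.image_subset_image hS)
        _ ≤ q := h2 j
  | succ h ih =>
    intro J hJ S hS hmono
    -- split `J`
    obtain ⟨J', hJ'J, hJ'c, hJ''c⟩ : ∃ J' ⊆ J, J'.card ≤ 2 ^ h ∧ (J \ J').card ≤ 2 ^ h := by
      by_cases hc : J.card ≤ 2 ^ h
      · exact ⟨J, Finset.Subset.refl _, hc, by simp⟩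
      · push Not at hc
        obtain ⟨J', hJ', hcard⟩ := Finset.exists_subset_card_eq hc.le
        refine ⟨J', hJ', hcard.le, ?_⟩
        rw [Finset.card_sdiff_of_subset hJ', hcard]
        rw [pow_succ] at hJ
        omega
    set X : α → ℕ := fun i => ∑ j ∈ J', g j i with hXdef
    set Y : α → ℕ := fun i => ∑ j ∈ J \ J', g j i with hYdef
    have hsum : ∀ i, ∑ j ∈ J, g j i = X i + Y i := by
      intro i
      rw [hXdef, hYdef]
      simp only
      rw [add_comm, Finset.sum_sdiff hJ'J]
    obtain ⟨lx, hlx1, hlx2⟩ := exists_label X S k (fun T hT hanti => h1 J' T (hT.trans hS) hanti)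
    obtain ⟨ly, hly1, hly2⟩ := exists_label Y S k
      (fun T hT hanti => h1 (J \ J') T (hT.trans hS) hanti)
    -- bound for the value sets on a class
    have hval : ∀ (K : Finset (Fin m)) (_ : K.card ≤ 2 ^ h) (C : Finset α), C ⊆ P →
        (∀ i ∈ C, ∀ i' ∈ C, i < i' → ∑ j ∈ K, g j i ≤ ∑ j ∈ K, g j i') →
        (C.image (fun i => ∑ j ∈ K, g j i)).card ≤ q * (2 * k ^ 2) ^ h := by
      intro K hK C hC hCmono
      obtain ⟨C', hC'C, hinj, himg⟩ : ∃ C' ⊆ C, Set.InjOn (fun i => ∑ j ∈ K, g j i) (C' : Set α) ∧
          C'.image (fun i => ∑ j ∈ K, g j i) = C.image (fun i => ∑ j ∈ K, g j i) := by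
        obtain ⟨C', hC', hinj⟩ := Finset.exists_subset_injOn_image_eq_of_surjOn
          (f := fun i => ∑ j ∈ K, g j i) C (C.image (fun i => ∑ j ∈ K, g j i))
          (by
            intro y hy
            simpa using hy)
        exact ⟨C', hC', hinj.1, hinj.2⟩
      rw [← himg, Finset.card_image_of_injOn hinj]
      apply ih K hK C' (hC'C.trans hC)
      intro a ha b hb hab
      have h1 := hCmono a (hC'C ha) b (hC'C hb) hab
      have h2 : ∑ j ∈ K, g j a ≠ ∑ j ∈ K, g j b := by
        intro hc
        exact hab.ne (hinj ha hb hc)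
      exact lt_of_le_of_ne h1 h2
    -- each class is small
    have hclass : ∀ c ∈ (Finset.Icc 1 k ×ˢ Finset.Icc 1 k),
        (S.filter fun i => (lx i, ly i) = c).card ≤ 2 * (q * (2 * k ^ 2) ^ h) := by
      intro c _
      set C := S.filter fun i => (lx i, ly i) = c with hCdef
      have hCS : C ⊆ S := Finset.filter_subset _ _
      have hCX : ∀ i ∈ C, ∀ i' ∈ C, i < i' → X i ≤ X i' := by
        intro i hi i' hi' hlt
        rw [hCdef, Finset.mem_filter] at hi hi'
        apply hlx2 i hi.1 i' hi'.1 hlt
        have e1 := hi.2; have e2 := hi'.2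
        rw [← e2] at e1
        exact (Prod.mk.inj e1).1
      have hCY : ∀ i ∈ C, ∀ i' ∈ C, i < i' → Y i ≤ Y i' := by
        intro i hi i' hi' hlt
        rw [hCdef, Finset.mem_filter] at hi hi'
        apply hly2 i hi.1 i' hi'.1 hlt
        have e1 := hi.2; have e2 := hi'.2
        rw [← e2] at e1
        exact (Prod.mk.inj e1).2
      have hCXY : ∀ i ∈ C, ∀ i' ∈ C, i < i' → X i + Y i < X i' + Y i' := by
        intro i hi i' hi' hlt
        rw [← hsum, ← hsum]
        exact hmono (hCS hi) (hCS hi') hlt
      have hb := card_le_image_add_image X Y C hCX hCY hCXY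
      have hb1 : (C.image X).card ≤ q * (2 * k ^ 2) ^ h := hval J' hJ'c C (hCS.trans hS) hCX
      have hb2 : (C.image Y).card ≤ q * (2 * k ^ 2) ^ h :=
        hval (J \ J') hJ''c C (hCS.trans hS) hCY
      omega
    have hmaps : ∀ i ∈ S, (lx i, ly i) ∈ (Finset.Icc 1 k ×ˢ Finset.Icc 1 k) := by
      intro i hi
      rw [Finset.mem_product]
      exact ⟨hlx1 i hi, hly1 i hi⟩
    have hfin := Finset.card_le_mul_card_image_of_maps_to hmaps _ hclass
    rw [Finset.card_product] at hfin
    simp only [Nat.card_Icc, Nat.add_sub_cancel] at hfin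
    calc S.card ≤ _ := hfin
      _ = q * (2 * k ^ 2) ^ (h + 1) := by ring

end Pool.Agent.H746R5.Lop
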