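import Mathlib

set_option autoImplicit false

/-!
# Dominating terms of sums of products: the flattening lemma
-/

namespace Pool.Agent.H746R5.Lop

open Polynomial Finset

variable {k m : ℕ}

/-- The exponents occurring in column `j` of the family `f`. -/
def expos (f : Fin k → Fin m → ℝ[X]) (j : Fin m) : Finset ℕ :=
  Finset.univ.biUnion fun i => (f i j).support

/-- The coefficient of the formal term with exponent tuple `a` in the expansion of
`∑ i, ∏ j, f i j`: before equal powers of the variable are collected,
`∑ i, ∏ j, f i j = ∑ a, tcoeff f a * X ^ (∑ j, a j)`. -/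
def tcoeff (f : Fin k → Fin m → ℝ[X]) (a : Fin m → ℕ) : ℝ := ∑ i, ∏ j, (f i j).coeff (a j)

/-- The absolute value at `x` of the formal term with exponent tuple `a`. -/
def tsize (f : Fin k → Fin m → ℝ[X]) (x : ℝ) (a : Fin m → ℕ) : ℝ :=
  |tcoeff f a| * |x| ^ (∑ j, a j)

/-- The formal term with exponent tuple `a` dominates at `x`: it exceeds in absolute value the sum
of the absolute values of all other formal terms. -/
def Dominates (f : Fin k → Fin m → ℝ[X]) (x : ℝ) (a : Fin m → ℕ) : Prop :=
  ∑ b ∈ (Fintype.piFinset (expos f)).erase a, tsize f x b < tsize f x a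

theorem tsize_nonneg (f : Fin k → Fin m → ℝ[X]) (x : ℝ) (a : Fin m → ℕ) : 0 ≤ tsize f x a := by
  unfold tsize; positivity

theorem tsize_abs (f : Fin k → Fin m → ℝ[X]) (x : ℝ) (a : Fin m → ℕ) :
    tsize f |x| a = tsize f x a := by
  unfold tsize; rw [abs_abs]

theorem dominates_abs (f : Fin k → Fin m → ℝ[X]) (x : ℝ) (a : Fin m → ℕ) :
    Dominates f |x| a ↔ Dominates f x a := by
  unfold Dominates; simp only [tsize_abs]

theorem Dominates.pos {f : Fin k → Fin m → ℝ[X]} {x : ℝ} {a : Fin m → ℕ} (h : Dominates f x a) :
    0 < tsize f x a :=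
  lt_of_le_of_lt (Finset.sum_nonneg fun b _ => tsize_nonneg f x b) h

theorem Dominates.tcoeff_ne {f : Fin k → Fin m → ℝ[X]} {x : ℝ} {a : Fin m → ℕ}
    (h : Dominates f x a) : tcoeff f a ≠ 0 := by
  intro hc
  have := h.pos
  unfold tsize at this
  rw [hc] at this
  simp at this

theorem Dominates.mem {f : Fin k → Fin m → ℝ[X]} {x : ℝ} {a : Fin m → ℕ} (h : Dominates f x a) :
    a ∈ Fintype.piFinset (expos f) := by
  rw [Fintype.mem_piFinset]
  intro j
  obtain ⟨i, _, hi⟩ := Finset.exists_ne_zero_of_sum_ne_zero h.tcoeff_ne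
  rw [Finset.prod_ne_zero_iff] at hi
  unfold expos
  rw [Finset.mem_biUnion]
  exact ⟨i, Finset.mem_univ _, Polynomial.mem_support_iff.mpr (hi j (Finset.mem_univ _))⟩

theorem Dominates.lt {f : Fin k → Fin m → ℝ[X]} {x : ℝ} {a b : Fin m → ℕ} (h : Dominates f x a)
    (hb : b ∈ Fintype.piFinset (expos f)) (hne : b ≠ a) : tsize f x b < tsize f x a :=
  lt_of_le_of_lt (Finset.single_le_sum (fun c _ => tsize_nonneg f x c)
    (Finset.mem_erase.mpr ⟨hne, hb⟩)) h

/-- At most one term dominates at a given point. -/
theorem Dominates.unique {f : Fin k → Fin m → ℝ[X]} {x : ℝ} {a b : Fin m → ℕ}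
    (h : Dominates f x a) (h' : Dominates f x b) : a = b := by
  by_contra hne
  have h1 := h.lt h'.mem (Ne.symm hne)
  have h2 := h'.lt h.mem hne
  linarith

/-- The total exponent of the dominating term increases. -/
theorem Dominates.sum_lt {f : Fin k → Fin m → ℝ[X]} {x y : ℝ} {a b : Fin m → ℕ}
    (hx : 0 < x) (hxy : x < y) (h : Dominates f x a) (h' : Dominates f y b) (hne : a ≠ b) :
    ∑ j, a j < ∑ j, b j := by
  by_contra hcon
  push Not at hcon
  have h1 := h.lt h'.mem (Ne.symm hne)
  have h2 := h'.lt h.mem hne
  unfold tsize at h1 h2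
  have hy : 0 < y := hx.trans hxy
  rw [abs_of_pos hx] at h1
  rw [abs_of_pos hy] at h2
  obtain ⟨d, hd⟩ := Nat.exists_eq_add_of_le hcon
  rw [hd, pow_add] at h1 h2
  have e1 : |tcoeff f b| < |tcoeff f a| * x ^ d := by
    have hp : 0 < x ^ (∑ j, b j) := by positivity
    nlinarith [h1]
  have e2 : |tcoeff f a| * y ^ d < |tcoeff f b| := by
    have hp : 0 < y ^ (∑ j, b j) := by positivity
    nlinarith [h2]
  have e3 : x ^ d ≤ y ^ d := pow_le_pow_left₀ hx.le hxy.le d
  have e4 : |tcoeff f a| * x ^ d ≤ |tcoeff f a| * y ^ d :=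
    mul_le_mul_of_nonneg_left e3 (abs_nonneg _)
  linarith

/-- The potential of a monotone relation. -/
theorem exists_potential_nat (σ y : ℕ → ℝ) (hσ : Antitone σ) (hy : Monotone y) :
    ∃ l : ℕ → ℝ, ∀ p q, l q - l p ≤ (σ q - σ p) * y p := by
  refine ⟨fun q => ∑ r ∈ Finset.range q, (σ (r + 1) - σ r) * y r, ?_⟩
  intro p q
  rcases le_total p q with h | h
  · induction q, h using Nat.le_induction with
    | base => simp
    | succ q hq ih =>
      simp only [Finset.sum_range_succ] at *
      have h1 : σ (q + 1) - σ q ≤ 0 := sub_nonpos.mpr (hσ (Nat.le_succ q))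
      have h2 : y p ≤ y q := hy hq
      nlinarith
  · induction p, h using Nat.le_induction with
    | base => simp
    | succ p hp ih =>
      simp only [Finset.sum_range_succ] at *
      have h1 : 0 ≤ σ q - σ (p + 1) := sub_nonneg.mpr (hσ (hp.trans (Nat.le_succ p)))
      have h2 : y p ≤ y (p + 1) := hy (Nat.le_succ p)
      nlinarith

theorem exists_potential (n : ℕ) (σ y : Fin n → ℝ) (hσ : Antitone σ) (hy : Monotone y) :
    ∃ l : Fin n → ℝ, ∀ p q, l q - l p ≤ (σ q - σ p) * y p := by
  rcases Nat.eq_zero_or_pos n with rfl | hn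
  · exact ⟨fun _ => 0, fun p => p.elim0⟩
  · let c : ℕ → Fin n := fun r => ⟨min r (n - 1), by omega⟩
    have hc : Monotone c := by
      intro a b hab
      simp only [c, Fin.mk_le_mk]
      omega
    obtain ⟨l, hl⟩ := exists_potential_nat (σ ∘ c) (y ∘ c) (hσ.comp_monotone hc) (hy.comp hc)
    refine ⟨fun p => l p, ?_⟩
    intro p q
    have h1 := hl p q
    have hcp : ∀ p : Fin n, c p = p := by
      intro p
      apply Fin.ext
      simp only [c]
      have := p.2
      omega
    simpa [Function.comp, hcp] using h1

/-- **The flattening lemma.** Along dominated points on which the partial exponent sum over `J`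
strictly decreases there are at most `k` terms. -/
theorem flat (f : Fin k → Fin m → ℝ[X]) (J : Finset (Fin m)) (n : ℕ) (x : Fin n → ℝ)
    (hx : ∀ p, 0 < x p) (hmono : StrictMono x) (a : Fin n → Fin m → ℕ)
    (hdom : ∀ p, Dominates f (x p) (a p)) (hanti : StrictAnti fun p => ∑ j ∈ J, a p j) :
    n ≤ k := by
  classical
  set σ : Fin n → ℕ := fun p => ∑ j ∈ J, a p j with hσ
  set ρ : Fin n → ℕ := fun p => ∑ j ∈ Jᶜ, a p j with hρ
  obtain ⟨l, hl⟩ := exists_potential n (fun p => (σ p : ℝ)) (fun p => Real.log (x p))
    (fun p q hpq => Nat.cast_le.mpr (hanti.antitone hpq))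
    (fun p q hpq => Real.log_le_log (hx p) (hmono.monotone hpq))
  let glue : Fin n → Fin n → Fin m → ℕ := fun p q j => if j ∈ J then a q j else a p j
  have hglue_sum : ∀ p q, ∑ j, glue p q j = σ q + ρ p := by
    intro p q
    rw [← Finset.sum_add_sum_compl J]
    congr 1
    · apply Finset.sum_congr rfl
      intro j hj
      simp [glue, hj]
    · apply Finset.sum_congr rfl
      intro j hj
      have : j ∉ J := by simpa using hj
      simp [glue, this]
  have hglue_J : ∀ p q, ∑ j ∈ J, glue p q j = σ q := by
    intro p q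
    apply Finset.sum_congr rfl
    intro j hj
    simp [glue, hj]
  have hglue_self : ∀ p, glue p p = a p := by
    intro p
    funext j
    simp [glue]
  let U : Matrix (Fin n) (Fin k) ℝ := Matrix.of fun p i => ∏ j ∈ Jᶜ, (f i j).coeff (a p j)
  let V : Matrix (Fin k) (Fin n) ℝ :=
    Matrix.of fun i q => (∏ j ∈ J, (f i j).coeff (a q j)) * Real.exp (l q)
  have hA : ∀ p q, (U * V) p q = tcoeff f (glue p q) * Real.exp (l q) := by
    intro p q
    rw [Matrix.mul_apply]
    unfold tcoeff
    rw [Finset.sum_mul]
    apply Finset.sum_congr rfl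
    intro i _
    simp only [U, V, Matrix.of_apply]
    rw [← mul_assoc]
    congr 1
    rw [mul_comm, ← Finset.prod_mul_prod_compl J]
    congr 1
    · apply Finset.prod_congr rfl
      intro j hj
      simp [glue, hj]
    · apply Finset.prod_congr rfl
      intro j hj
      have : j ∉ J := by simpa using hj
      simp [glue, this]
  have hdet : (U * V).det ≠ 0 := by
    apply det_ne_zero_of_sum_row_lt_diag
    intro p
    simp only [hA, Real.norm_eq_abs, abs_mul, Real.abs_exp]
    set c : ℝ := Real.exp (l p - ((σ p : ℝ) + ρ p) * Real.log (x p)) with hc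
    have hcpos : 0 < c := Real.exp_pos _
    have hpow : ∀ N : ℕ, |x p| ^ N = Real.exp ((N : ℝ) * Real.log (x p)) := by
      intro N
      rw [abs_of_pos (hx p), mul_comm, ← Real.rpow_natCast, Real.rpow_def_of_pos (hx p)]
    have hle : ∀ q, |tcoeff f (glue p q)| * Real.exp (l q) ≤ tsize f (x p) (glue p q) * c := by
      intro q
      unfold tsize
      rw [hglue_sum, hpow, mul_assoc, hc, ← Real.exp_add]
      apply mul_le_mul_of_nonneg_left _ (abs_nonneg _)
      apply Real.exp_le_exp.mpr
      have := hl p q
      push_cast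
      nlinarith
    have heq : |tcoeff f (glue p p)| * Real.exp (l p) = tsize f (x p) (glue p p) * c := by
      unfold tsize
      rw [hglue_sum, hpow, mul_assoc, hc, ← Real.exp_add]
      congr 2
      push_cast
      ring
    rw [heq]
    calc ∑ q ∈ Finset.univ.erase p, |tcoeff f (glue p q)| * Real.exp (l q)
        ≤ ∑ q ∈ Finset.univ.erase p, tsize f (x p) (glue p q) * c :=
          Finset.sum_le_sum fun q _ => hle q
      _ = (∑ q ∈ Finset.univ.erase p, tsize f (x p) (glue p q)) * c := by rw [Finset.sum_mul]
      _ < tsize f (x p) (glue p p) * c := by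
          apply mul_lt_mul_of_pos_right _ hcpos
          rw [hglue_self]
          refine lt_of_le_of_lt ?_ (hdom p)
          have hinj : Set.InjOn (fun q => glue p q) ((Finset.univ.erase p : Finset (Fin n)) : Set (Fin n)) := by
            intro q _ q' _ hqq
            have h1 : ∑ j ∈ J, glue p q j = ∑ j ∈ J, glue p q' j := by
              simp only at hqq
              rw [hqq]
            rw [hglue_J, hglue_J] at h1
            exact hanti.injective h1
          rw [← Finset.sum_image (f := fun b => tsize f (x p) b) hinj]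
          apply Finset.sum_le_sum_of_subset_of_nonneg
          · intro b hb
            rw [Finset.mem_image] at hb
            obtain ⟨q, hq, rfl⟩ := hb
            rw [Finset.mem_erase]
            constructor
            · intro hc'
              have h1 : ∑ j ∈ J, glue p q j = ∑ j ∈ J, a p j := by rw [hc']
              rw [hglue_J] at h1
              exact (Finset.mem_erase.mp hq).1 (hanti.injective h1)
            · rw [Fintype.mem_piFinset]
              intro j
              have h1 := Fintype.mem_piFinset.mp (hdom p).mem j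
              have h2 := Fintype.mem_piFinset.mp (hdom q).mem j
              simp only [glue]
              split_ifs
              · exact h2
              · exact h1
          · intro b _ _
            exact tsize_nonneg _ _ _
  have hunit : IsUnit (U * V) := by
    rw [Matrix.isUnit_iff_isUnit_det]
    exact isUnit_iff_ne_zero.mpr hdet
  have h1 : (U * V).rank = Fintype.card (Fin n) := Matrix.rank_of_isUnit _ hunit
  have h2 : (U * V).rank ≤ U.rank := Matrix.rank_mul_le_left U V
  have h3 : U.rank ≤ Fintype.card (Fin k) := Matrix.rank_le_card_width U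
  simp only [Fintype.card_fin] at h1 h3
  omega

end Pool.Agent.H746R5.Lop
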