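import Pool.Agent.H746R5.Lop.Comb
import Pool.Agent.H746R5.Lop.Flat

set_option autoImplicit false

/-!
# Quasi-polynomial bound for the number of dominating terms, and for real roots separated by
dominated points
-/

namespace Pool.Agent.H746R5.Lop

open Polynomial Finset

variable {k m : ℕ}

/-- The formal expansion. -/
theorem eval_expand (f : Fin k → Fin m → ℝ[X]) (x : ℝ) :
    (∑ i, ∏ j, f i j).eval x =
      ∑ b ∈ Fintype.piFinset (expos f), tcoeff f b * x ^ (∑ j, b j) := by
  classical
  have h1 : ∀ i j, (f i j).eval x = ∑ e ∈ expos f j, (f i j).coeff e * x ^ e := by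
    intro i j
    rw [Polynomial.eval_eq_sum, Polynomial.sum_def]
    apply Finset.sum_subset
    · intro e he
      unfold expos
      rw [Finset.mem_biUnion]
      exact ⟨i, Finset.mem_univ _, he⟩
    · intro e _ he
      rw [Polynomial.notMem_support_iff] at he
      rw [he, zero_mul]
  rw [Polynomial.eval_finsetSum]
  simp only [Polynomial.eval_prod]
  simp only [h1]
  simp only [Finset.prod_univ_sum]
  rw [Finset.sum_comm]
  apply Finset.sum_congr rfl
  intro b _
  unfold tcoeff
  rw [Finset.sum_mul]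
  apply Finset.sum_congr rfl
  intro i _
  rw [Finset.prod_mul_distrib, Finset.prod_pow_eq_pow_sum]

/-- No root at a dominated point. -/
theorem Dominates.eval_ne {f : Fin k → Fin m → ℝ[X]} {x : ℝ} {a : Fin m → ℕ}
    (h : Dominates f x a) : (∑ i, ∏ j, f i j).eval x ≠ 0 := by
  classical
  intro hc
  rw [eval_expand, ← Finset.add_sum_erase _ _ h.mem] at hc
  have h1 : |tcoeff f a * x ^ (∑ j, a j)| = tsize f x a := by
    unfold tsize
    rw [abs_mul, abs_pow]
  have h2 : |∑ b ∈ (Fintype.piFinset (expos f)).erase a, tcoeff f b * x ^ (∑ j, b j)| ≤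
      ∑ b ∈ (Fintype.piFinset (expos f)).erase a, tsize f x b := by
    refine (Finset.abs_sum_le_sum_abs _ _).trans (le_of_eq ?_)
    apply Finset.sum_congr rfl
    intro b _
    unfold tsize
    rw [abs_mul, abs_pow]
  have h3 : tcoeff f a * x ^ (∑ j, a j) =
      -∑ b ∈ (Fintype.piFinset (expos f)).erase a, tcoeff f b * x ^ (∑ j, b j) := by
    linarith
  have h4 : tsize f x a ≤ ∑ b ∈ (Fintype.piFinset (expos f)).erase a, tsize f x b := by
    rw [← h1, h3, abs_neg]
    exact h2
  exact absurd h (not_lt.mpr h4)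

/-- The set of points where a given term dominates is convex. -/
theorem Dominates.between {f : Fin k → Fin m → ℝ[X]} {u v w : ℝ} {a : Fin m → ℕ}
    (hu : 0 < u) (huw : u ≤ w) (hwv : w ≤ v) (h : Dominates f u a) (h' : Dominates f v a) :
    Dominates f w a := by
  classical
  have hw : 0 < w := lt_of_lt_of_le hu huw
  have hv : 0 < v := lt_of_lt_of_le hw hwv
  -- normalised form
  have key : ∀ x : ℝ, 0 < x → (Dominates f x a ↔
      ∑ b ∈ (Fintype.piFinset (expos f)).erase a,
        |tcoeff f b| * Real.exp ((((∑ j, b j : ℕ) : ℝ) - ((∑ j, a j : ℕ) : ℝ)) * Real.log x)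
        < |tcoeff f a|) := by
    intro x hx
    have hpow : ∀ N : ℕ, |x| ^ N = Real.exp ((N : ℝ) * Real.log x) := by
      intro N
      rw [abs_of_pos hx, mul_comm, ← Real.rpow_natCast, Real.rpow_def_of_pos hx]
    have hc : 0 < Real.exp (((∑ j, a j : ℕ) : ℝ) * Real.log x) := Real.exp_pos _
    unfold Dominates tsize
    simp only [hpow]
    constructor
    · intro hd
      have e1 : (∑ b ∈ (Fintype.piFinset (expos f)).erase a,
        |tcoeff f b| * Real.exp ((((∑ j, b j : ℕ) : ℝ) - ((∑ j, a j : ℕ) : ℝ)) * Real.log x)) *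
          Real.exp (((∑ j, a j : ℕ) : ℝ) * Real.log x) <
          |tcoeff f a| * Real.exp (((∑ j, a j : ℕ) : ℝ) * Real.log x) := by
        refine lt_of_eq_of_lt ?_ hd
        rw [Finset.sum_mul]
        apply Finset.sum_congr rfl
        intro b _
        rw [mul_assoc, ← Real.exp_add]
        congr 2
        ring
      exact lt_of_mul_lt_mul_right e1 hc.le
    · intro hd
      have e1 := mul_lt_mul_of_pos_right hd hc
      refine lt_of_eq_of_lt ?_ e1
      rw [Finset.sum_mul]
      apply Finset.sum_congr rfl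
      intro b _
      rw [mul_assoc, ← Real.exp_add]
      congr 2
      ring
  rw [key u hu] at h
  rw [key v hv] at h'
  rw [key w hw]
  -- `log w` is a convex combination
  obtain ⟨θ, hθ0, hθ1, hθ⟩ : ∃ θ : ℝ, 0 ≤ θ ∧ θ ≤ 1 ∧
      Real.log w = (1 - θ) * Real.log u + θ * Real.log v := by
    have l1 : Real.log u ≤ Real.log w := Real.log_le_log hu huw
    have l2 : Real.log w ≤ Real.log v := Real.log_le_log hw hwv
    rcases eq_or_lt_of_le (l1.trans l2) with heq | hlt
    · refine ⟨0, le_refl _, zero_le_one, ?_⟩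
      linarith
    · refine ⟨(Real.log w - Real.log u) / (Real.log v - Real.log u), ?_, ?_, ?_⟩
      · apply div_nonneg <;> linarith
      · rw [div_le_one (by linarith)]
        linarith
      · have : Real.log v - Real.log u ≠ 0 := by linarith
        field_simp
        ring
  have hconv : ∀ s : ℝ, Real.exp (s * Real.log w) ≤
      (1 - θ) * Real.exp (s * Real.log u) + θ * Real.exp (s * Real.log v) := by
    intro s
    have := convexOn_exp.2 (Set.mem_univ (s * Real.log u)) (Set.mem_univ (s * Real.log v))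
      (sub_nonneg.mpr hθ1) hθ0 (by ring)
    simp only [smul_eq_mul] at this
    refine le_trans (le_of_eq ?_) this
    rw [hθ]
    congr 1
    ring
  calc ∑ b ∈ (Fintype.piFinset (expos f)).erase a,
        |tcoeff f b| * Real.exp ((((∑ j, b j : ℕ) : ℝ) - ((∑ j, a j : ℕ) : ℝ)) * Real.log w)
      ≤ ∑ b ∈ (Fintype.piFinset (expos f)).erase a,
        ((1 - θ) * (|tcoeff f b| *
          Real.exp ((((∑ j, b j : ℕ) : ℝ) - ((∑ j, a j : ℕ) : ℝ)) * Real.log u)) +
        θ * (|tcoeff f b| *
          Real.exp ((((∑ j, b j : ℕ) : ℝ) - ((∑ j, a j : ℕ) : ℝ)) * Real.log v))) := by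
        apply Finset.sum_le_sum
        intro b _
        have := mul_le_mul_of_nonneg_left
          (hconv (((∑ j, b j : ℕ) : ℝ) - ((∑ j, a j : ℕ) : ℝ))) (abs_nonneg (tcoeff f b))
        linarith
    _ = (1 - θ) * (∑ b ∈ (Fintype.piFinset (expos f)).erase a, |tcoeff f b| *
          Real.exp ((((∑ j, b j : ℕ) : ℝ) - ((∑ j, a j : ℕ) : ℝ)) * Real.log u)) +
        θ * (∑ b ∈ (Fintype.piFinset (expos f)).erase a, |tcoeff f b| *
          Real.exp ((((∑ j, b j : ℕ) : ℝ) - ((∑ j, a j : ℕ) : ℝ)) * Real.log v)) := by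
        rw [Finset.sum_add_distrib, ← Finset.mul_sum, ← Finset.mul_sum]
    _ < |tcoeff f a| := by
        rcases eq_or_lt_of_le hθ0 with h0 | h0
        · rw [← h0]; linarith
        · have e1 := mul_lt_mul_of_pos_left h' h0
          have e2 := mul_le_mul_of_nonneg_left h.le (sub_nonneg.mpr hθ1)
          linarith

/-- The bound. -/
def bd (k m t : ℕ) : ℕ := k * t * (2 * k ^ 2) ^ (Nat.clog 2 m)

/-- The number of terms that dominate somewhere. -/
theorem card_dominating (k m t : ℕ) (hk : 1 ≤ k) (ht : 1 ≤ t) (f : Fin k → Fin m → ℝ[X])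
    (hf : ∀ i j, (f i j).support.card ≤ t) (D : Finset (Fin m → ℕ))
    (hD : ∀ a ∈ D, ∃ x : ℝ, 0 < x ∧ Dominates f x a) :
    D.card ≤ bd k m t := by
  classical
  have hX : ∃ X : (Fin m → ℕ) → ℝ, ∀ a ∈ D, 0 < X a ∧ Dominates f (X a) a := by
    refine ⟨fun a => if h : a ∈ D then (hD a h).choose else 0, ?_⟩
    intro a ha
    simp only [ha, dif_pos]
    exact (hD a ha).choose_spec
  obtain ⟨X, hX⟩ := hX
  have hXinj : Set.InjOn X (D : Set (Fin m → ℕ)) := by
    intro a ha b hb hab
    have h1 := (hX a ha).2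
    have h2 := (hX b hb).2
    rw [hab] at h1
    exact h1.unique h2
  set P : Finset ℝ := D.image X with hP
  have hcardP : P.card = D.card := Finset.card_image_of_injOn hXinj
  have hτ : ∃ τ : ℝ → (Fin m → ℕ), ∀ y ∈ P, τ y ∈ D ∧ X (τ y) = y := by
    have : ∀ y ∈ P, ∃ a, a ∈ D ∧ X a = y := by
      intro y hy
      rw [hP, Finset.mem_image] at hy
      exact hy
    refine ⟨fun y => if h : y ∈ P then (this y h).choose else fun _ => 0, ?_⟩
    intro y hy
    simp only [hy, dif_pos]
    exact (this y hy).choose_spec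
  obtain ⟨τ, hτ⟩ := hτ
  have hpos : ∀ y ∈ P, 0 < y := by
    intro y hy
    obtain ⟨h1, h2⟩ := hτ y hy
    rw [← h2]; exact (hX _ h1).1
  have hdom : ∀ y ∈ P, Dominates f y (τ y) := by
    intro y hy
    obtain ⟨h1, h2⟩ := hτ y hy
    have := (hX _ h1).2
    rwa [h2] at this
  have hne : ∀ y ∈ P, ∀ y' ∈ P, y < y' → τ y ≠ τ y' := by
    intro y hy y' hy' hlt hc
    have h1 := (hτ y hy).2
    have h2 := (hτ y' hy').2
    rw [hc, h2] at h1
    exact hlt.ne' h1
  rw [← hcardP]
  refine dc m k (k * t) (Nat.mul_pos hk ht) P (fun j y => τ y j) ?_ ?_ (Nat.clog 2 m)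
    Finset.univ ?_ P (Finset.Subset.refl _) ?_
  · intro J S hS hanti
    let e := S.orderEmbOfFin (rfl : S.card = S.card)
    have heS : ∀ p, e p ∈ S := fun p => Finset.orderEmbOfFin_mem S rfl p
    apply flat f J S.card (fun p => e p) (fun p => hpos _ (hS (heS p)))
      (fun p q hpq => e.strictMono hpq) (fun p => τ (e p)) (fun p => hdom _ (hS (heS p)))
    intro p q hpq
    exact hanti (by simpa using heS p) (by simpa using heS q) (e.strictMono hpq)
  · intro j
    calc (P.image fun y => τ y j).card ≤ (expos f j).card := by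
          apply Finset.card_le_card
          intro e he
          rw [Finset.mem_image] at he
          obtain ⟨y, hy, rfl⟩ := he
          exact Fintype.mem_piFinset.mp (hdom y hy).mem j
      _ ≤ ∑ i : Fin k, (f i j).support.card := Finset.card_biUnion_le
      _ ≤ ∑ _i : Fin k, t := Finset.sum_le_sum fun i _ => hf i j
      _ = k * t := by simp
  · rw [Finset.card_univ, Fintype.card_fin]
    exact Nat.le_pow_clog (by norm_num) m
  · intro y hy y' hy' hlt
    have hy1 : y ∈ P := by simpa using hy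
    have hy2 : y' ∈ P := by simpa using hy'
    exact (hdom y hy1).sum_lt (hpos y hy1) hlt (hdom y' hy2) (hne y hy1 y' hy2 hlt)

/-- Roots of one sign. -/
theorem card_roots_one_sign (k m t q : ℕ) (hk : 1 ≤ k) (ht : 1 ≤ t) (f : Fin k → Fin m → ℝ[X])
    (hf : ∀ i j, (f i j).support.card ≤ t) (W : Finset ℝ)
    (hWr : ∀ r ∈ W, (∑ i, ∏ j, f i j).eval |r| = 0 ∨
      (∑ i, ∏ j, f i j).eval (-|r|) = 0)
    (hsep : ∀ U ⊆ W, q < U.card → ∃ u ∈ U, ∃ v ∈ U, ∃ (x : ℝ) (a : Fin m → ℕ),
      |u| < |x| ∧ |x| < |v| ∧ Dominates f x a) :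
    W.card ≤ q * (bd k m t + 1) := by
  classical
  -- no term dominates at `|r|`
  have hno : ∀ r ∈ W, ∀ a, ¬ Dominates f |r| a := by
    intro r hr a hd
    rcases hWr r hr with h | h
    · exact hd.eval_ne h
    · have : Dominates f (-|r|) a := by
        rw [← dominates_abs, abs_neg, abs_abs]
        exact hd
      exact this.eval_ne h
  let 𝒟 : Finset (Fin m → ℕ) :=
    (Fintype.piFinset (expos f)).filter fun a => ∃ x : ℝ, 0 < x ∧ Dominates f x a
  have h𝒟 : 𝒟.card ≤ bd k m t := by
    apply card_dominating k m t hk ht f hf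
    intro a ha
    exact (Finset.mem_filter.mp ha).2
  let E : ℝ → Finset (Fin m → ℕ) := fun r =>
    𝒟.filter fun a => ∃ x : ℝ, 0 < x ∧ x < |r| ∧ Dominates f x a
  have hmaps : ∀ r ∈ W, (E r).card ∈ Finset.range (bd k m t + 1) := by
    intro r _
    rw [Finset.mem_range]
    have := Finset.card_le_card (Finset.filter_subset
      (fun a => ∃ x : ℝ, 0 < x ∧ x < |r| ∧ Dominates f x a) 𝒟)
    simp only [E]
    omega
  have hfib : ∀ c ∈ Finset.range (bd k m t + 1), (W.filter fun r => (E r).card = c).card ≤ q := by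
    intro c _
    by_contra hcon
    push Not at hcon
    obtain ⟨u, hu, v, hv, x, a, hux, hxv, hd⟩ := hsep _ (Finset.filter_subset _ _) hcon
    rw [Finset.mem_filter] at hu hv
    have hlt : E u ⊂ E v := by
      refine ⟨?_, ?_⟩
      · intro b hb
        simp only [E, Finset.mem_filter] at hb ⊢
        obtain ⟨hb1, y, hy1, hy2, hy3⟩ := hb
        exact ⟨hb1, y, hy1, hy2.trans (hux.trans hxv), hy3⟩
      · intro hc
        have hux0 : 0 < |x| := lt_of_le_of_lt (abs_nonneg u) hux
        have hdx : Dominates f |x| a := (dominates_abs f x a).mpr hd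
        have h1 : a ∈ E v := by
          simp only [E, 𝒟, Finset.mem_filter]
          exact ⟨⟨hd.mem, |x|, hux0, hdx⟩, |x|, hux0, hxv, hdx⟩
        have h2 := hc h1
        simp only [E, Finset.mem_filter] at h2
        obtain ⟨_, y, hy1, hy2, hy3⟩ := h2
        exact hno u hu.1 a (hy3.between hy1 hy2.le hux.le hdx)
    have := Finset.card_lt_card hlt
    omega
  have hfin := Finset.card_le_mul_card_image_of_maps_to hmaps q hfib
  simpa using hfin

/-- All real roots. -/
theorem card_roots (k m t q : ℕ) (hk : 1 ≤ k) (ht : 1 ≤ t) (f : Fin k → Fin m → ℝ[X])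
    (hf : ∀ i j, (f i j).support.card ≤ t)
    (hsep : ∀ U ⊆ (∑ i, ∏ j, f i j).roots.toFinset, ((∀ u ∈ U, 0 < u) ∨ (∀ u ∈ U, u < 0)) →
      q < U.card → ∃ u ∈ U, ∃ v ∈ U, ∃ (x : ℝ) (a : Fin m → ℕ),
      u < x ∧ x < v ∧ Dominates f x a) :
    (∑ i, ∏ j, f i j).roots.toFinset.card ≤ 2 * (q * (bd k m t + 1)) + 1 := by
  classical
  set R := (∑ i, ∏ j, f i j).roots.toFinset with hR
  have hroot : ∀ r ∈ R, (∑ i, ∏ j, f i j).eval r = 0 := by
    intro r hr
    rw [hR, Multiset.mem_toFinset] at hr
    exact (Polynomial.mem_roots'.mp hr).2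
  have hp : (R.filter fun r => 0 < r).card ≤ q * (bd k m t + 1) := by
    apply card_roots_one_sign k m t q hk ht f hf
    · intro r hr
      rw [Finset.mem_filter] at hr
      left
      rw [abs_of_pos hr.2]
      exact hroot r hr.1
    · intro U hU hq
      have hUpos : ∀ u ∈ U, 0 < u := fun u hu => (Finset.mem_filter.mp (hU hu)).2
      obtain ⟨u, hu, v, hv, x, a, h1, h2, h3⟩ :=
        hsep U (hU.trans (Finset.filter_subset _ _)) (Or.inl hUpos) hq
      refine ⟨u, hu, v, hv, x, a, ?_, ?_, h3⟩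
      · rw [abs_of_pos (hUpos u hu), abs_of_pos ((hUpos u hu).trans h1)]; exact h1
      · rw [abs_of_pos (hUpos v hv), abs_of_pos ((hUpos u hu).trans h1)]; exact h2
  have hn : (R.filter fun r => r < 0).card ≤ q * (bd k m t + 1) := by
    apply card_roots_one_sign k m t q hk ht f hf
    · intro r hr
      rw [Finset.mem_filter] at hr
      right
      rw [abs_of_neg hr.2, neg_neg]
      exact hroot r hr.1
    · intro U hU hq
      have hUneg : ∀ u ∈ U, u < 0 := fun u hu => (Finset.mem_filter.mp (hU hu)).2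
      obtain ⟨u, hu, v, hv, x, a, h1, h2, h3⟩ :=
        hsep U (hU.trans (Finset.filter_subset _ _)) (Or.inr hUneg) hq
      have hx : x < 0 := h2.trans (hUneg v hv)
      refine ⟨v, hv, u, hu, x, a, ?_, ?_, h3⟩
      · rw [abs_of_neg (hUneg v hv), abs_of_neg hx]; linarith
      · rw [abs_of_neg (hUneg u hu), abs_of_neg hx]; linarith
  have hsub : R ⊆ insert 0 ((R.filter fun r => 0 < r) ∪ (R.filter fun r => r < 0)) := by
    intro r hr
    rw [Finset.mem_insert, Finset.mem_union, Finset.mem_filter, Finset.mem_filter]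
    rcases lt_trichotomy r 0 with h | h | h
    · exact Or.inr (Or.inr ⟨hr, h⟩)
    · exact Or.inl h
    · exact Or.inr (Or.inl ⟨hr, h⟩)
  have h1 := Finset.card_le_card hsub
  have h2 := Finset.card_insert_le (0 : ℝ)
    ((R.filter fun r => 0 < r) ∪ (R.filter fun r => r < 0))
  have h3 := Finset.card_union_le (R.filter fun r => 0 < r) (R.filter fun r => r < 0)
  omega

end Pool.Agent.H746R5.Lop
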